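import Mathlib
import Pool.Agent.Helper150.Iid.Main

set_option autoImplicit false

namespace Pool.Agent.Results.MP_2e2259_an.UniformErrorLoss

open MeasureTheory
open scoped ENNReal
open Pool.Agent.Helper150.Iid

/-- `a_n ≍ b_n`: `c b_n ≤ a_n ≤ C b_n` for all large `n`, with `c > 0` and `C` independent
of `n`. -/
def SameOrder (a b : ℕ → ℝ≥0∞) : Prop :=
  ∃ c C : ℝ, 0 < c ∧ ∃ n₀ : ℕ, ∀ n : ℕ, n₀ ≤ n →
    ENNReal.ofReal c * b n ≤ a n ∧ a n ≤ ENNReal.ofReal C * b n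

/-- Independent uniformly distributed points are not optimal for the uniform error of integration
on `H^{k,mix}(𝕋²)`, for every `k > 1/2`: infinitely often they lose at least the factor
`(log n)^θ`, for every `θ < k - 1/2`. In particular the answer to Q2 is negative. -/
theorem result :
    (¬ ∀ (d : ℕ) (k : ℝ), 1 ≤ d → 1 / 2 < k → SameOrder (eIid d k) (eOpt d k)) ∧
    (∀ k : ℝ, 1 / 2 < k → ∀ θ : ℝ, θ < k - 1 / 2 → ∀ n₀ : ℕ, ∃ n : ℕ, n₀ ≤ n ∧
      ENNReal.ofReal ((Real.log n) ^ θ) * eOpt 2 k n < eIid 2 k n) := by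
  refine ⟨fun h => ?_, fun k hk θ hθ n₀ => ratio_main k hk θ hθ n₀⟩
  obtain ⟨c, C, hc, n₀, H⟩ := h 2 1 (by norm_num) (by norm_num)
  -- choose `n₁` with `C ≤ (log n)^(1/4)` for all `n ≥ n₁`
  have h1 : Filter.Tendsto (fun n : ℕ => (Real.log n) ^ (1 / 4 : ℝ)) Filter.atTop Filter.atTop :=
    (tendsto_rpow_atTop (by norm_num)).comp
      (Real.tendsto_log_atTop.comp tendsto_natCast_atTop_atTop)
  obtain ⟨n₁, hn₁⟩ := Filter.eventually_atTop.1 (h1.eventually_ge_atTop C)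
  obtain ⟨n, hn, hlt⟩ := ratio_main 1 (by norm_num) (1 / 4) (by norm_num) (max n₀ n₁)
  have h2 := (H n (le_trans (le_max_left _ _) hn)).2
  have h3 := hn₁ n (le_trans (le_max_right _ _) hn)
  have h4 : ENNReal.ofReal C * eOpt 2 1 n ≤ ENNReal.ofReal ((Real.log n) ^ (1 / 4 : ℝ)) *
      eOpt 2 1 n := by
    gcongr
  exact absurd (h2.trans h4) (not_le.2 hlt)

end Pool.Agent.Results.MP_2e2259_an.UniformErrorLoss
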